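import Mathlib
import Pool.Agent.Q84.Osss

/-!
# The OSSS inequality fails for fractional query algorithms

The two-bit AND function has a zero-error fractional query algorithm (discrete time, four steps,
output map the harmonic extension) with `∑ δ_i Inf_i = 17/24 < 3/4 = Var`.
-/

set_option autoImplicit false

namespace Pool.Agent.Results.MP_ebdc6e_an.FractionalOsssFails

open MeasureTheory Filter

/-- The bit `true` is `+1`, the bit `false` is `-1`. -/
def sgn (b : Bool) : ℝ := if b then 1 else -1

/-- The point of `{-1,1}^n ⊆ ℝ^n` given by a vector of bits. -/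
def pt {n : ℕ} (x : Fin n → Bool) : Fin n → ℝ := fun i => sgn (x i)

/-- Mean of `f : {-1,1}^n → {-1,1}` under the uniform measure. -/
noncomputable def mean {n : ℕ} (f : (Fin n → Bool) → Bool) : ℝ :=
  (∑ x, sgn (f x)) / 2 ^ n

/-- Variance of `f : {-1,1}^n → {-1,1}` under the uniform measure. -/
noncomputable def variance {n : ℕ} (f : (Fin n → Bool) → Bool) : ℝ :=
  (∑ x, (sgn (f x) - mean f) ^ 2) / 2 ^ n

/-- Influence of coordinate `i`: the probability that flipping bit `i` changes `f`. -/
noncomputable def influence {n : ℕ} (f : (Fin n → Bool) → Bool) (i : Fin n) : ℝ :=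
  ((Finset.univ.filter fun x => f x ≠ f (Function.update x i (!(x i)))).card : ℝ) / 2 ^ n

/-- The harmonic (multilinear) extension of `f` to `ℝ^n`. -/
noncomputable def harmonicExtension {n : ℕ} (f : (Fin n → Bool) → Bool) (y : Fin n → ℝ) : ℝ :=
  ∑ x, sgn (f x) * ∏ i, ((1 + sgn (x i) * y i) / 2)

/-- A fractional query algorithm for uniform inputs on `n` bits, in discrete time and with a
finite stopping time: a process `X(t) ∈ [-1,1]^n` on a probability space, with `X(0) = 0`,
converging to `X(∞)`, whose law is uniform on `{-1,1}^n`; `X` and all the products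
`∏_{i ∈ S} X_i` are martingales (for the natural filtration of `X`); `τ` is a stopping time for
the natural filtration of `X`; and `A` is the output map. -/
structure FractionalQueryAlgorithm (n : ℕ) where
  /-- the sample space -/
  Ω : Type
  /-- its sigma-algebra -/
  mΩ : MeasurableSpace Ω
  /-- the probability measure -/
  P : Measure Ω
  isProb : IsProbabilityMeasure P
  /-- the process -/
  X : ℕ → Ω → (Fin n → ℝ)
  X_meas : ∀ t, StronglyMeasurable (X t)
  X_mem : ∀ t ω i, X t ω i ∈ Set.Icc (-1 : ℝ) 1
  X_zero : ∀ ω, X 0 ω = 0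
  /-- the terminal value -/
  Xinf : Ω → (Fin n → ℝ)
  X_tendsto : ∀ ω, Tendsto (fun t => X t ω) atTop (nhds (Xinf ω))
  Xinf_law : ∀ x : Fin n → Bool, P.real {ω | Xinf ω = pt x} = 1 / 2 ^ n
  X_martingale : Martingale X (Filtration.natural X X_meas) P
  prod_martingale : ∀ S : Finset (Fin n),
    Martingale (fun t ω => ∏ i ∈ S, X t ω i) (Filtration.natural X X_meas) P
  /-- the stopping time -/
  τ : Ω → ℕ
  τ_stopping : IsStoppingTime (Filtration.natural X X_meas) (fun ω => (τ ω : WithTop ℕ))
  /-- the output map -/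
  A : (Fin n → ℝ) → ℝ

/-- The algorithm computes `f` with zero error: `A(X(τ)) = f(X(∞))` almost surely. -/
def FractionalQueryAlgorithm.Computes {n : ℕ} (Q : FractionalQueryAlgorithm n)
    (f : (Fin n → Bool) → Bool) : Prop :=
  letI := Q.mΩ
  ∀ᵐ ω ∂Q.P, ∃ x : Fin n → Bool, Q.Xinf ω = pt x ∧ Q.A (Q.X (Q.τ ω) ω) = sgn (f x)

/-- The revealment `δ_i = E[(X_i(τ) - X_i(0))²]` of bit `i`. -/
noncomputable def FractionalQueryAlgorithm.revealment {n : ℕ} (Q : FractionalQueryAlgorithm n)
    (i : Fin n) : ℝ :=
  letI := Q.mΩ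
  ∫ ω, (Q.X (Q.τ ω) ω i - Q.X 0 ω i) ^ 2 ∂Q.P

/-- The AND of two bits. -/
def and2 (x : Fin 2 → Bool) : Bool := x 0 && x 1

theorem variance_and2 : variance and2 = 3 / 4 := by
  have e : (Finset.univ : Finset (Fin 2 → Bool)) =
      {![false, false], ![false, true], ![true, false], ![true, true]} := by decide
  unfold variance mean
  rw [e]
  simp [Finset.sum_insert, and2, sgn]
  norm_num

theorem influence_and2 (i : Fin 2) : influence and2 i = 1 / 2 := by
  have : (Finset.univ.filter fun x : Fin 2 → Bool =>
      and2 x ≠ and2 (Function.update x i (!(x i)))).card = 2 := by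
    fin_cases i <;> decide
  unfold influence
  rw [this]
  norm_num

open Q84.Osss in
/-- The algorithm. -/
noncomputable def alg : FractionalQueryAlgorithm 2 where
  Ω := Om
  mΩ := inferInstance
  P := P
  isProb := inferInstance
  X := X
  X_meas := X_meas
  X_mem := by
    intro t ω i
    have hY : ∀ s u, Y s u ∈ Set.Icc (-1 : ℝ) 1 := by
      intro s u
      unfold Y
      split_ifs <;> constructor <;> norm_num
    fin_cases i
    · exact hY _ _
    · exact hY _ _
  X_zero := by
    intro ω
    funext i
    fin_cases i <;> simp [X, Y, a, b]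
  Xinf := X 4
  X_tendsto := by
    intro ω
    refine tendsto_const_nhds.congr' ?_
    filter_upwards [eventually_ge_atTop 4] with t ht
    have ha : a t = 2 := by unfold a; split_ifs <;> omega
    have hb : b t = 2 := by unfold b; split_ifs <;> omega
    unfold X
    rw [ha, hb]
    rfl
  Xinf_law := by
    intro x
    have h := law (x 0) (x 1)
    have e : (pt x : Fin 2 → ℝ) =
        ![if x 0 then (1 : ℝ) else -1, if x 1 then (1 : ℝ) else -1] := by
      funext i
      fin_cases i <;> rfl
    rw [e, h]
    norm_num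
  X_martingale := X_martingale
  prod_martingale := prod_martingale
  τ := tau
  τ_stopping := tau_stopping
  A := harmonicExtension and2

theorem harmonicExtension_and2 (y : Fin 2 → ℝ) :
    harmonicExtension and2 y = -1 + (1 + y 0) * (1 + y 1) / 2 := by
  have e : (Finset.univ : Finset (Fin 2 → Bool)) =
      {![false, false], ![false, true], ![true, false], ![true, true]} := by decide
  unfold harmonicExtension
  rw [e]
  simp [Finset.sum_insert, and2, sgn]
  ring

/-- **The OSSS inequality fails for fractional query algorithms.** There are a Boolean function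
on two bits and a fractional query algorithm, with output map the harmonic extension of the
function, computing it with zero error and with `Var(f) > ∑ δ_i Inf_i(f)`. -/
theorem result : ∃ (f : (Fin 2 → Bool) → Bool) (Q : FractionalQueryAlgorithm 2),
    Q.A = harmonicExtension f ∧ Q.Computes f ∧
      ∑ i, Q.revealment i * influence f i < variance f := by
  refine ⟨and2, alg, rfl, ?_, ?_⟩
  · refine Eventually.of_forall fun ω => ?_
    refine ⟨![decide (3 ≤ ω.1), decide (3 ≤ ω.2)], ?_, ?_⟩
    · have h1 : ∀ (u : Fin 6), (Q84.Osss.Y 2 u = sgn (decide (3 ≤ u))) := by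
        intro u
        fin_cases u <;> simp [Q84.Osss.Y, sgn] <;> norm_num
      funext i
      fin_cases i
      · exact h1 _
      · exact h1 _
    · change harmonicExtension and2 (Q84.Osss.X (Q84.Osss.tau ω) ω) = _
      rw [harmonicExtension_and2]
      obtain ⟨u, v⟩ := ω
      fin_cases u <;> fin_cases v <;>
        simp [Q84.Osss.tau, Q84.Osss.X, Q84.Osss.Y, Q84.Osss.a, Q84.Osss.b, and2, sgn] <;>
        norm_num
  · have h0 : alg.revealment 0 = 5 / 6 := by
      change ∫ ω, (Q84.Osss.X (Q84.Osss.tau ω) ω 0 - Q84.Osss.X 0 ω 0) ^ 2 ∂Q84.Osss.P = _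
      rw [Q84.Osss.integral_P, Fintype.sum_prod_type]
      simp [Fin.sum_univ_six, Q84.Osss.tau, Q84.Osss.X, Q84.Osss.Y, Q84.Osss.a, Q84.Osss.b]
      norm_num
    have h1 : alg.revealment 1 = 7 / 12 := by
      change ∫ ω, (Q84.Osss.X (Q84.Osss.tau ω) ω 1 - Q84.Osss.X 0 ω 1) ^ 2 ∂Q84.Osss.P = _
      rw [Q84.Osss.integral_P, Fintype.sum_prod_type]
      simp [Fin.sum_univ_six, Q84.Osss.tau, Q84.Osss.X, Q84.Osss.Y, Q84.Osss.a, Q84.Osss.b]
      norm_num
    rw [Fin.sum_univ_two, h0, h1, influence_and2, influence_and2, variance_and2]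
    norm_num

end Pool.Agent.Results.MP_ebdc6e_an.FractionalOsssFails
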